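import Pool.Agent.X184.SS.Stm

set_option autoImplicit false

namespace Pool.Agent.X224.SS

open Finset Pool.Agent.X184.SS

theorem t_UNI : S_UNI := by
  classical
  intro n k G h1 h2 h3
  obtain ⟨I, hI⟩ : ∃ I : Finset (Fin k), I = univ.filter fun i => (G i).Nonempty := ⟨_, rfl⟩
  have memI : ∀ i, i ∈ I ↔ (G i).Nonempty := fun i => by rw [hI]; simp
  have hk : I.card ≤ k := by simpa using Finset.card_le_univ I
  refine ⟨I.card, fun j => G (I.orderEmbOfFin rfl j), ?_, ?_, ?_, ?_⟩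
  · intro j
    exact ⟨(memI _).1 (I.orderEmbOfFin_mem rfl j), h1 _⟩
  · intro i j hij a ha b hb
    exact h2 _ _ ((I.orderEmbOfFin rfl).lt_iff_lt.2 hij) a ha b hb
  · ext a
    simp only [Finset.mem_biUnion, Finset.mem_univ, true_and]
    constructor
    · rintro ⟨i, hi⟩
      have h4 : i ∈ Set.range (I.orderEmbOfFin rfl) := by
        rw [Finset.range_orderEmbOfFin]
        exact (memI i).2 ⟨a, hi⟩
      obtain ⟨j, rfl⟩ := h4
      exact ⟨j, hi⟩
    · rintro ⟨j, hj⟩
      exact ⟨_, hj⟩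
  · intro a ha
    obtain ⟨i, -, hi⟩ := Finset.mem_biUnion.1 ha
    exact hk.trans (h3 i a hi)

end Pool.Agent.X224.SS
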